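import Pool.Agent.H317.GR.StmA

/-!
# Project GR, A12: TRZ (the traces of the `p`-adic representations are integers)
-/

set_option autoImplicit false

namespace Pool.Agent.H227.GR

open Matrix Pool.Agent.H317.GR

theorem two_mem {α : Type} {s : Set α} (h : s.encard = 2) {x y z : α}
    (hx : x ∈ s) (hy : y ∈ s) (hxy : x ≠ y) (hz : z ∈ s) : z = x ∨ z = y := by
  obtain ⟨a, b, hab, rfl⟩ := Set.encard_eq_two.mp h
  rcases hx with rfl | hx
  · rcases hy with rfl | hy
    · exact absurd rfl hxy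
    · have hy' : y = b := hy
      subst hy'
      rcases hz with rfl | hz
      · exact Or.inl rfl
      · exact Or.inr hz
  · have hx' : x = b := hx
    subst hx'
    rcases hy with rfl | hy
    · rcases hz with rfl | hz
      · exact Or.inr rfl
      · exact Or.inl hz
    · exact absurd (Eq.symm hy) hxy

theorem trace_glmap {n : ℕ} {K L : Type} [CommRing K] [CommRing L] (j : K →+* L)
    (A : GL (Fin n) K) : (GeneralLinearGroup.map j A).val.trace = j A.val.trace := by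
  have h1 : (GeneralLinearGroup.map (n := Fin n) j A).val = A.val.map j := rfl
  rw [h1]
  unfold Matrix.trace
  rw [map_sum]
  rfl

theorem chars_map {G : Type} [Group G] {n : ℕ} {K L : Type} [Field K] [Field L] (j : K →+* L)
    {ψ : G → K} (h : ψ ∈ chars G n K) : (fun g => j (ψ g)) ∈ chars G n L := by
  obtain ⟨ρ, hρ⟩ := h
  refine ⟨(GeneralLinearGroup.map j).comp ρ, fun g => ?_⟩
  change j (ψ g) = (GeneralLinearGroup.map j (ρ g)).val.trace
  rw [trace_glmap, hρ]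

theorem finChars_map {G : Type} [Group G] {n : ℕ} {K L : Type} [Field K] [Field L] (j : K →+* L)
    {ψ : G → K} (h : ψ ∈ finChars G n K) : (fun g => j (ψ g)) ∈ finChars G n L := by
  obtain ⟨ρ, hfin, hρ⟩ := h
  refine ⟨(GeneralLinearGroup.map j).comp ρ, ?_, fun g => ?_⟩
  · rw [MonoidHom.range_comp]
    have h1 : ((ρ.range : Subgroup _) : Set (GL (Fin n) K)).Finite := Set.toFinite _
    have h2 := h1.image (GeneralLinearGroup.map (n := Fin n) j)
    exact h2.to_subtype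
  · change j (ψ g) = (GeneralLinearGroup.map j (ρ g)).val.trace
    rw [trace_glmap, hρ]

theorem finChars_range {G : Type} [Group G] {n : ℕ} {K : Type} [Field K]
    {ψ : G → K} (h : ψ ∈ finChars G n K) : (Set.range ψ).Finite := by
  obtain ⟨ρ, hfin, hρ⟩ := h
  have h1 : ((ρ.range : Subgroup _) : Set (GL (Fin n) K)).Finite := Set.toFinite _
  refine (h1.image (fun A : GL (Fin n) K => A.val.trace)).subset ?_
  rintro _ ⟨g, rfl⟩
  exact ⟨ρ g, ⟨g, rfl⟩, (hρ g).symm⟩

theorem finite_range_of_ker {G H K : Type} [Group G] [Group H] [Group K] (f : G →* H)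
    (f' : G →* K) (hf : Finite f.range) (h : ∀ g, f g = 1 → f' g = 1) : Finite f'.range := by
  have h1 : f.ker.FiniteIndex := inferInstance
  have h2 : f.ker ≤ f'.ker := fun g hg => h g hg
  have h3 : f'.ker.FiniteIndex := Subgroup.finiteIndex_of_le h2
  have h4 : Finite (G ⧸ f'.ker) := inferInstance
  exact Finite.of_equiv _ (QuotientGroup.quotientKerEquivRange f').toEquiv

theorem diff_map (hD : S_DSC) {G : Type} [Group G] [Group.FG G] {n : ℕ} {K L : Type} [Field K]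
    [Field L] [IsAlgClosed K] (j : K →+* L) {ψ : G → K}
    (h : ψ ∈ chars G n K \ finChars G n K) :
    (fun g => j (ψ g)) ∈ chars G n L \ finChars G n L := by
  refine ⟨chars_map j h.1, fun hf => h.2 ?_⟩
  obtain ⟨ρ', hfin, hρ'⟩ := hf
  let _ : Algebra K L := j.toAlgebra
  obtain ⟨ρ'', hk, ht⟩ := hD K L G n ρ'
  refine ⟨ρ'', finite_range_of_ker ρ' ρ'' hfin hk, fun g => ?_⟩
  exact (ht g (ψ g) (hρ' g).symm).symm

/-- the character of a `p`-adic representation in `ℚ̄_p` -/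
noncomputable def cp {G : Type} [Group G] {n p : ℕ} [Fact p.Prime]
    (ρ : G →* SpecialLinearGroup (Fin n) ℤ_[p]) (g : G) : AlgebraicClosure ℚ_[p] :=
  algebraMap ℚ_[p] (AlgebraicClosure ℚ_[p]) (((ρ g).val.trace : ℤ_[p]) : ℚ_[p])

theorem emb_inj {p : ℕ} [Fact p.Prime] {x y : ℤ_[p]}
    (h : algebraMap ℚ_[p] (AlgebraicClosure ℚ_[p]) (x : ℚ_[p]) =
      algebraMap ℚ_[p] (AlgebraicClosure ℚ_[p]) (y : ℚ_[p])) : x = y := by
  have h1 := (algebraMap ℚ_[p] (AlgebraicClosure ℚ_[p])).injective h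
  exact Subtype.ext h1

theorem cp_mem {G : Type} [Group G] {n p : ℕ} [Fact p.Prime]
    (ρ : G →* SpecialLinearGroup (Fin n) ℤ_[p])
    (hinf : (Set.range fun g => (ρ g).val.trace).Infinite) :
    cp ρ ∈ chars G n (AlgebraicClosure ℚ_[p]) \ finChars G n (AlgebraicClosure ℚ_[p]) := by
  constructor
  · refine ⟨(GeneralLinearGroup.map (algebraMap ℚ_[p] (AlgebraicClosure ℚ_[p]))).comp
      ((toQ n p).comp ρ), fun g => ?_⟩
    change _ = (GeneralLinearGroup.map (algebraMap ℚ_[p] (AlgebraicClosure ℚ_[p]))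
      (toQ n p (ρ g))).val.trace
    rw [trace_glmap]
    unfold cp
    congr 1
    have h1 : (toQ n p (ρ g)).val = (ρ g).val.map (algebraMap ℤ_[p] ℚ_[p]) := rfl
    rw [h1]
    unfold Matrix.trace
    have h2 : ∀ x : ℤ_[p], (x : ℚ_[p]) = algebraMap ℤ_[p] ℚ_[p] x := fun x => rfl
    rw [h2, map_sum]
    rfl
  · intro hf
    have h1 := finChars_range hf
    apply hinf
    have h2 : (Set.range fun g => (ρ g).val.trace) ⊆
        (fun x : ℤ_[p] => algebraMap ℚ_[p] (AlgebraicClosure ℚ_[p]) (x : ℚ_[p])) ⁻¹'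
          (Set.range (cp ρ)) := by
      rintro _ ⟨g, rfl⟩
      exact ⟨g, rfl⟩
    refine (h1.preimage ?_).subset h2
    intro x _ y _ hxy
    exact emb_inj hxy

theorem dl_trace {G : Type} [Group G] {n p : ℕ} [Fact p.Prime]
    (ρ : G →* SpecialLinearGroup (Fin n) ℤ_[p]) (g : G) :
    (((dl n ℤ_[p]).comp ρ) g).val.trace = (ρ g⁻¹).val.trace := by
  have h1 : (((dl n ℤ_[p]).comp ρ) g).val = (((ρ g)⁻¹).val)ᵀ := rfl
  rw [h1, Matrix.trace_transpose, map_inv]

theorem trz : S_CNT → S_PAI → S_DSC → S_RAT → S_TRZ := by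
  intro hC hP hD hR n hn Λ _ _ hq1 hq2 ρ hρ
  -- (1)
  have hX : ∀ (p : ℕ) [Fact p.Prime] (z : Λ → AlgebraicClosure ℚ_[p]),
      z ∈ chars Λ n (AlgebraicClosure ℚ_[p]) \ finChars Λ n (AlgebraicClosure ℚ_[p]) →
      z = cp (ρ p) ∨ z = cp ((dl n ℤ_[p]).comp (ρ p)) := by
    intro p _ z hz
    obtain ⟨h1, ⟨g, h2⟩, h3, h4⟩ := hP n hn p Λ (ρ p) (hρ p)
    obtain ⟨h1', -, -, -⟩ := hP n hn p Λ ((dl n ℤ_[p]).comp (ρ p)) h4
    refine two_mem (hC n hn Λ hq1 hq2 (AlgebraicClosure ℚ_[p])) (cp_mem (ρ p) h1)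
      (cp_mem ((dl n ℤ_[p]).comp (ρ p)) h1') ?_ hz
    intro he
    apply h2
    have h5 := congrFun he g
    have h6 := emb_inj h5
    rw [h6, dl_trace]
  -- (3)
  obtain ⟨ψ1, ψ2, hne, hset⟩ := Set.encard_eq_two.mp (hC n hn Λ hq1 hq2 (AlgebraicClosure ℚ))
  have hψ1 : ψ1 ∈ chars Λ n (AlgebraicClosure ℚ) \ finChars Λ n (AlgebraicClosure ℚ) := by
    rw [hset]; exact Or.inl rfl
  have hint : ∀ g : Λ, ∃ z : ℤ, ψ1 g = (z : AlgebraicClosure ℚ) := by
    intro g
    refine hR (ψ1 g) (ψ2 g) ?_ ?_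
    · intro α
      have h1 : (fun g => (α : AlgebraicClosure ℚ →+* AlgebraicClosure ℚ) (ψ1 g)) ∈
          chars Λ n (AlgebraicClosure ℚ) \ finChars Λ n (AlgebraicClosure ℚ) :=
        diff_map hD _ hψ1
      rw [hset] at h1
      rcases h1 with h1 | h1
      · exact Or.inl (congrFun h1 g)
      · exact Or.inr (congrFun h1 g)
    · intro p _ j
      rcases hX p _ (diff_map hD j hψ1) with h1 | h1
      · exact ⟨_, congrFun h1 g⟩
      · exact ⟨_, congrFun h1 g⟩
  choose ψ hψ using hint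
  refine ⟨ψ, fun p _ => ?_⟩
  -- (4)
  have hQ : Algebra.IsAlgebraic ℚ (AlgebraicClosure ℚ) := AlgebraicClosure.isAlgebraic ℚ
  have hj : ∃ j : AlgebraicClosure ℚ →+* AlgebraicClosure ℚ_[p], True :=
    ⟨(IsAlgClosed.lift (R := ℚ) (S := AlgebraicClosure ℚ) (M := AlgebraicClosure ℚ_[p]) :
      AlgebraicClosure ℚ →ₐ[ℚ] AlgebraicClosure ℚ_[p]).toRingHom, trivial⟩
  obtain ⟨j, -⟩ := hj
  have hcast : ∀ z : ℤ, j (z : AlgebraicClosure ℚ) =
      algebraMap ℚ_[p] (AlgebraicClosure ℚ_[p]) (((z : ℤ_[p])) : ℚ_[p]) := by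
    intro z
    rw [map_intCast, PadicInt.coe_intCast, map_intCast]
  rcases hX p _ (diff_map hD j hψ1) with h1 | h1
  · left
    intro g
    have h2 := congrFun h1 g
    change j (ψ1 g) = _ at h2
    rw [hψ, hcast] at h2
    exact (emb_inj h2).symm
  · right
    intro g
    have h2 := congrFun h1 g⁻¹
    change j (ψ1 g⁻¹) = _ at h2
    rw [hψ, hcast] at h2
    have h3 := emb_inj h2
    rw [h3, dl_trace, inv_inv]

end Pool.Agent.H227.GR
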