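import Pool.Agent.H317.GR.StmD
import Pool.Graph.R_pool_sql_team_seeded_ab47071d.TH567.PR.Pos

/-!
# Project GR (helper317), task SU1 (helper227): unipotent powers of the elementary matrices
-/

set_option autoImplicit false

namespace Pool.Agent.H227.GR

open Matrix Pool.Agent.H317.GR Pool.Agent.TH567.PR

/-- elementary matrices with `b ≠ c`, `a ≠ d` commute -/
theorem tv_com {n : ℕ} {a b c d : Fin n} (hab : a ≠ b) (hcd : c ≠ d) (hbc : b ≠ c) (had : a ≠ d) :
    SpecialLinearGroup.transvection hab (1 : ℤ) * SpecialLinearGroup.transvection hcd 1 =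
      SpecialLinearGroup.transvection hcd 1 * SpecialLinearGroup.transvection hab 1 := by
  apply Subtype.ext
  change (_ + _) * (_ + _) = (_ + _) * (_ + _)
  rw [add_mul, mul_add, mul_add, add_mul, mul_add, mul_add,
    Matrix.single_mul_single_of_ne _ _ _ _ hbc,
    Matrix.single_mul_single_of_ne _ _ _ _ had.symm]
  simp only [one_mul, mul_one]
  abel

theorem nilp_pow {R : Type*} [Ring R] {g : R} (d : ℕ) (h : IsNilpotent (g - 1)) :
    IsNilpotent (g ^ d - 1) := by
  rw [← mul_geom_sum g d]
  refine Commute.isNilpotent_mul_right ?_ h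
  refine Commute.sum_right _ _ _ fun i _ => ?_
  exact ((Commute.refl g).pow_right i).sub_left (Commute.one_left _)

section kill

variable {n : ℕ} {G : Type*} [Group G] (τ : SZ n →* G) (k : ℤ)

theorem step_row {i j l : Fin n} (hij : i ≠ j) (hjl : j ≠ l) (hil : i ≠ l)
    (h : τ (SpecialLinearGroup.transvection hij k) = 1) :
    τ (SpecialLinearGroup.transvection hil k) = 1 := by
  have e := congrArg τ (tv_comm hij hjl hil k 1)
  rw [map_mul, map_mul, map_mul, h, one_mul, mul_one, mul_one] at e
  exact right_eq_mul.1 e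

theorem step_col {l i j : Fin n} (hli : l ≠ i) (hij : i ≠ j) (hlj : l ≠ j)
    (h : τ (SpecialLinearGroup.transvection hij k) = 1) :
    τ (SpecialLinearGroup.transvection hlj k) = 1 := by
  have e := congrArg τ (tv_comm hli hij hlj 1 k)
  rw [map_mul, map_mul, map_mul, h, one_mul, mul_one, one_mul] at e
  exact right_eq_mul.1 e

/-- if one elementary matrix is killed then all are -/
theorem kill_all (hn : 3 ≤ n) {i j : Fin n} (hij : i ≠ j)
    (h : τ (SpecialLinearGroup.transvection hij k) = 1) (a b : Fin n) (hab : a ≠ b) :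
    τ (SpecialLinearGroup.transvection hab k) = 1 := by
  have hι : 3 ≤ Fintype.card (Fin n) := by rw [Fintype.card_fin]; exact hn
  -- the row of `i`
  have hrow : ∀ (b : Fin n) (hib : i ≠ b), τ (SpecialLinearGroup.transvection hib k) = 1 := by
    intro b hib
    by_cases hb : j = b
    · subst hb
      exact h
    · exact step_row τ k hij hb hib h
  have hrow2 : ∀ (a b : Fin n) (hab : a ≠ b), a ≠ i → b ≠ i →
      τ (SpecialLinearGroup.transvection hab k) = 1 := by
    intro a b hab hai hbi
    exact step_col τ k hai hbi.symm hab (hrow b hbi.symm)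
  by_cases hai : a = i
  · subst hai
    exact hrow b hab
  · by_cases hbi : b = i
    · obtain ⟨c, hac, hcb⟩ := exists_third hι a b
      have hci : c ≠ i := by rw [← hbi]; exact hcb
      exact step_row τ k hac hcb hab (hrow2 a c hac hai hci)
    · exact hrow2 a b hab hai hbi

end kill

/-- **SU1** -/
theorem su1 : S_SU1 := by
  intro n hn K _ _ τ
  classical
  have hι : 3 ≤ Fintype.card (Fin n) := by rw [Fintype.card_fin]; exact hn
  have hθ : ∀ x : Fin n × Fin n, ∃ N : ℕ, N ≠ 0 ∧ ∀ h : x.1 ≠ x.2, ∃ s : ℕ,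
      ((τ (SpecialLinearGroup.transvection h (1 : ℤ)) : Matrix (Fin n) (Fin n) K) ^ N - 1) ^ s =
        0 := by
    rintro ⟨i, j⟩
    by_cases h : i = j
    · exact ⟨1, one_ne_zero, fun h' => absurd h h'⟩
    · obtain ⟨k, hik, hkj⟩ := exists_third hι i j
      have e1 := congrArg τ (tv_comm hik hkj h 1 1)
      rw [map_mul, map_mul, map_mul, mul_one] at e1
      have e2 := congrArg τ (tv_com hik h hik.symm h)
      have e3 := congrArg τ (tv_com hkj h (Ne.symm h) hkj)
      rw [map_mul, map_mul] at e2 e3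
      obtain ⟨N, hN, hu⟩ := gl_unip _ _ _ e1 e2 e3
      exact ⟨N, hN, fun _ => hu⟩
  choose m hm using hθ
  obtain ⟨k, hk⟩ : ∃ k : ℕ, k = ∏ x, m x := ⟨_, rfl⟩
  have hk0 : k ≠ 0 := by
    rw [hk]
    exact Finset.prod_ne_zero_iff.2 fun x _ => (hm x).1
  have hnil : ∀ (i j : Fin n) (h : i ≠ j),
      IsNilpotent ((τ (SpecialLinearGroup.transvection h (k : ℤ))).val - 1) := by
    intro i j h
    obtain ⟨d, hd⟩ : m (i, j) ∣ k := by
      rw [hk]
      exact Finset.dvd_prod_of_mem m (Finset.mem_univ _)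
    have e1 : (τ (SpecialLinearGroup.transvection h (k : ℤ))).val =
        ((τ (SpecialLinearGroup.transvection h (1 : ℤ))).val ^ m (i, j)) ^ d := by
      have e2 := tv_pow h 1 k
      rw [mul_one] at e2
      rw [← e2, map_pow, Units.val_pow_eq_pow_val, hd, pow_mul]
    rw [e1]
    exact nilp_pow d ((hm (i, j)).2 h)
  by_cases hex : ∃ (i j : Fin n) (h : i ≠ j), τ (SpecialLinearGroup.transvection h (k : ℤ)) = 1
  · obtain ⟨i, j, h, hij⟩ := hex
    exact Or.inl (finite_range_of_kill hι τ k hk0 (kill_all τ k hn h hij))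
  · push Not at hex
    exact Or.inr ⟨k, Nat.one_le_iff_ne_zero.2 hk0, hnil, hex⟩

end Pool.Agent.H227.GR
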